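import Pool.Agent.helper62.VN.SpecG

set_option autoImplicit false

open scoped MatrixGroups ContDiff Topology UpperHalfPlane
open UpperHalfPlane MeasureTheory Filter Set

namespace Pool.Agent.VNE

open Pool.Agent.RS Pool.Agent.VQE
open Pool.Agent.VQ (Dyn rho kap n1 n2 hess Ug TF)
open Pool.Agent.VN (PotN OKN Kg)

theorem GTD_XX (U : ℍ → ℝ) (E : ℝ) (g : SL(2, ℝ)) : VQ.XX U E g =
    !![rho U E g / 2, kap U E g / 2; -(kap U E g) / 2, -(rho U E g / 2)] := by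
  rw [VQ.XX, VQ.A0, VQ.K0]
  ext i j
  fin_cases i <;> fin_cases j <;> simp <;> ring

theorem GTD_proof (h1 : VQ.VDG_stmt) : GTD_stmt := by
  intro Γ k B D hD t g
  have hk := hD.pot.kpos
  have hU : 0 < D.U (D.fl 0 t g • I) := by
    have := hD.pot.lo (D.fl 0 t g • I)
    linarith
  have hder : ∀ i j, HasDerivAt (fun s => (D.fl 0 s g).1 i j) (((D.fl 0 t g).1 *
      !![rho D.U 0 (D.fl 0 t g) / 2, kap D.U 0 (D.fl 0 t g) / 2; -(kap D.U 0 (D.fl 0 t g)) / 2,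
        -(rho D.U 0 (D.fl 0 t g) / 2)]) i j) t := by
    intro i j
    have h := hD.dfl 0 t g (by rw [abs_zero]; exact hk.1.le) i j
    rw [GTD_XX] at h
    exact h
  obtain ⟨-, q2, -, q4, -⟩ := h1 D.U hD.pot.smooth (fun s => D.fl 0 s g) t
    (rho D.U 0 (D.fl 0 t g)) (kap D.U 0 (D.fl 0 t g) / 2) (-(kap D.U 0 (D.fl 0 t g)) / 2) 0
    (by linarith) hder
  set ρ : ℝ := rho D.U 0 (D.fl 0 t g) with hρ
  set κ : ℝ := kap D.U 0 (D.fl 0 t g) with hκ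
  have hρ0 : 0 < ρ := by
    rw [hρ, rho]
    apply Real.sqrt_pos.2
    linarith
  have hκe : κ = n2 D.U (D.fl 0 t g) / (2 * ρ) := rfl
  constructor
  · have e : (XD D).p ((XD D).f t g) ^ 2 * (XD D).m ((XD D).f t g) =
        (n1 D.U (D.fl 0 t g) * ρ - n2 D.U (D.fl 0 t g) * (κ / 2 + -κ / 2)) / (2 * ρ) := by
      show ρ ^ 2 * (n1 D.U (D.fl 0 t g) / (2 * ρ ^ 2)) = _
      field_simp
      ring
    rw [e]
    exact q4
  · have q5 := q2.div ((q4.pow 2).const_mul 2) (by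
      show (2 : ℝ) * ρ ^ 2 ≠ 0
      positivity)
    have e : (XD D).m1 ((XD D).f t g) =
        ((hess D.U (D.fl 0 t g) 0 0 * ρ - hess D.U (D.fl 0 t g) 0 1 * (κ / 2 + -κ / 2) +
          (κ / 2 - -κ / 2) * n2 D.U (D.fl 0 t g)) * (2 * ρ ^ 2) -
          n1 D.U (D.fl 0 t g) * (2 * ((2 : ℕ) * ρ ^ (2 - 1) *
            ((n1 D.U (D.fl 0 t g) * ρ - n2 D.U (D.fl 0 t g) * (κ / 2 + -κ / 2)) / (2 * ρ))))) /
          (2 * ρ ^ 2) ^ 2 := by
      show hess D.U (D.fl 0 t g) 0 0 / (2 * ρ) + n2 D.U (D.fl 0 t g) ^ 2 / (4 * ρ ^ 3) -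
        n1 D.U (D.fl 0 t g) ^ 2 / (2 * ρ ^ 3) = _
      rw [hκe]
      field_simp
      ring
    rw [e]
    exact q5

end Pool.Agent.VNE
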